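import Pool.Agent.H64.FTM.Targets

/-!
# KAP: the Koszul signs
-/

set_option autoImplicit false

open Matrix Pool.Agent.H64.CC Pool.Agent.H2.NL Pool.Agent.H64.FTM

namespace Pool.Agent.H64.FTMR

theorem sym_prod {K : Type} [Field K] {m : ℕ} (σ : Equiv.Perm (Fin m)) (G : Fin m → Fin m → K)
    (hG : ∀ a b, G a b = G b a) :
    ∏ p : Fin m × Fin m, (if p.1 < p.2 then G (σ p.1) (σ p.2) else 1) =
      ∏ p : Fin m × Fin m, (if p.1 < p.2 then G p.1 p.2 else 1) := by
  rw [← Finset.prod_filter, ← Finset.prod_filter]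
  refine Finset.prod_nbij'
    (fun p => if σ p.1 < σ p.2 then (σ p.1, σ p.2) else (σ p.2, σ p.1))
    (fun p => if σ.symm p.1 < σ.symm p.2 then (σ.symm p.1, σ.symm p.2)
      else (σ.symm p.2, σ.symm p.1)) ?_ ?_ ?_ ?_ ?_
  · rintro ⟨a, b⟩ h
    simp only [Finset.mem_filter, Finset.mem_univ, true_and] at h ⊢
    split_ifs with h1
    · exact h1
    · exact lt_of_le_of_ne (not_lt.1 h1) fun h2 => (ne_of_lt h) (σ.injective h2).symm
  · rintro ⟨a, b⟩ h
    simp only [Finset.mem_filter, Finset.mem_univ, true_and] at h ⊢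
    split_ifs with h1
    · exact h1
    · exact lt_of_le_of_ne (not_lt.1 h1) fun h2 => (ne_of_lt h) (σ.symm.injective h2).symm
  · rintro ⟨a, b⟩ h
    simp only [Finset.mem_filter, Finset.mem_univ, true_and] at h ⊢
    by_cases h1 : σ a < σ b
    · simp only [h1, if_true, Equiv.symm_apply_apply, h]
    · simp only [h1, if_false, Equiv.symm_apply_apply]
      rw [if_neg (not_lt.2 h.le)]
  · rintro ⟨a, b⟩ h
    simp only [Finset.mem_filter, Finset.mem_univ, true_and] at h ⊢
    by_cases h1 : σ.symm a < σ.symm b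
    · simp only [h1, if_true, Equiv.apply_symm_apply, h]
    · simp only [h1, if_false, Equiv.apply_symm_apply]
      rw [if_neg (not_lt.2 h.le)]
  · rintro ⟨a, b⟩ h
    simp only
    split_ifs with h1
    · rfl
    · exact hG _ _

theorem pf_KAP : T_KAP := by
  intro K _ I o m
  have hks : ∀ p q : Bool, ks K p q * ks K p q = 1 := ks_mul_self K
  have h3 : ∀ (σ : Equiv.Perm (Fin m)) (w : Fin m → I),
      Pool.Agent.H64.FTM.kap (K := K) o σ w * Pool.Agent.H64.FTM.kap o σ w = 1 := by
    intro σ w
    unfold Pool.Agent.H64.FTM.kap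
    rw [← Finset.prod_mul_distrib]
    refine Finset.prod_eq_one fun p _ => ?_
    split_ifs
    · exact hks _ _
    · exact one_mul 1
  refine ⟨?_, ?_, h3, ?_⟩
  · intro σ τ w
    have e2 : Pool.Agent.H64.FTM.kap (K := K) o τ (fun i => w (σ i)) =
        ∏ p : Fin m × Fin m, (if p.1 < p.2 then
          (fun a b : Fin m => if ¬ (σ.symm a < σ.symm b ↔ (σ * τ).symm a < (σ * τ).symm b) then
            ks K (o (w a)) (o (w b)) else 1) (σ p.1) (σ p.2) else 1) := by
      unfold Pool.Agent.H64.FTM.kap
      refine Finset.prod_congr rfl fun p _ => ?_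
      by_cases h : p.1 < p.2
      · rw [if_pos h]
        have e : ∀ a : Fin m, (σ * τ).symm (σ a) = τ.symm a := by
          intro a
          rw [Equiv.symm_apply_eq]
          simp
        simp only [Equiv.symm_apply_apply, e, h, true_and, true_iff]
        have h1 : τ.symm p.2 < τ.symm p.1 ↔ ¬ τ.symm p.1 < τ.symm p.2 := by
          rw [not_lt]
          exact ⟨le_of_lt, fun h2 => lt_of_le_of_ne h2 fun h3 =>
            (ne_of_lt h) (τ.symm.injective h3).symm⟩
        simp only [h1]
      · rw [if_neg h, if_neg fun h' => h h'.1]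
    have hG : ∀ a b : Fin m,
        (fun a b : Fin m => if ¬ (σ.symm a < σ.symm b ↔ (σ * τ).symm a < (σ * τ).symm b) then
            ks K (o (w a)) (o (w b)) else (1 : K)) a b =
        (fun a b : Fin m => if ¬ (σ.symm a < σ.symm b ↔ (σ * τ).symm a < (σ * τ).symm b) then
            ks K (o (w a)) (o (w b)) else (1 : K)) b a := by
      intro a b
      by_cases hab : a = b
      · rw [hab]
      · have h1 : ∀ ρ : Equiv.Perm (Fin m), ρ.symm b < ρ.symm a ↔ ¬ ρ.symm a < ρ.symm b := by
          intro ρ
          rw [not_lt]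
          exact ⟨le_of_lt, fun h2 => lt_of_le_of_ne h2 fun h3 =>
            hab (ρ.symm.injective h3).symm⟩
        simp only [h1 σ, h1 (σ * τ), not_iff_not, Pool.Agent.H2.NL.ks_comm K (o (w b)) (o (w a))]
    rw [e2.trans (sym_prod σ _ hG)]
    · unfold Pool.Agent.H64.FTM.kap
      rw [← Finset.prod_mul_distrib]
      refine Finset.prod_congr rfl fun p _ => ?_
      by_cases h : p.1 < p.2
      · have h1 : ∀ ρ : Equiv.Perm (Fin m), ρ.symm p.2 < ρ.symm p.1 ↔ ¬ ρ.symm p.1 < ρ.symm p.2 := by
          intro ρ
          rw [not_lt]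
          exact ⟨le_of_lt, fun h2 => lt_of_le_of_ne h2 fun h3 =>
            (ne_of_lt h) (ρ.symm.injective h3).symm⟩
        simp only [h1, h, true_and, if_true]
        by_cases hA : σ.symm p.1 < σ.symm p.2 <;> by_cases hB : (σ * τ).symm p.1 < (σ * τ).symm p.2
        · simp [hA, hB]
        · simp [hA, hB]
        · simp [hA, hB, hks]
        · simp [hA, hB]
      · simp only [h, false_and, if_false, mul_one]
  · intro w
    unfold Pool.Agent.H64.FTM.kap
    refine Finset.prod_eq_one fun p _ => if_neg ?_
    rintro ⟨h1, h2⟩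
    exact lt_asymm h1 h2
  · intro j h w
    unfold Pool.Agent.H64.FTM.kap
    have hj : j < m := Nat.lt_of_succ_lt h
    rw [Finset.prod_eq_single ((⟨j, hj⟩, ⟨j + 1, h⟩) : Fin m × Fin m)]
    · rw [if_pos]
      constructor
      · exact Fin.mk_lt_mk.2 (Nat.lt_succ_self j)
      · simp only [Equiv.symm_swap, Equiv.swap_apply_left, Equiv.swap_apply_right]
        exact Fin.mk_lt_mk.2 (Nat.lt_succ_self j)
    · rintro ⟨a, b⟩ - hne
      refine if_neg ?_
      rintro ⟨h1, h2⟩
      simp only [Equiv.symm_swap] at h1 h2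
      refine hne ?_
      by_cases ha1 : a = ⟨j, hj⟩
      · subst ha1
        by_cases hb1 : b = ⟨j + 1, h⟩
        · rw [hb1]
        · exfalso
          rw [Equiv.swap_apply_left, Equiv.swap_apply_of_ne_of_ne (ne_of_gt h1) hb1] at h2
          have h3 : j < b.1 := h1
          have h4 : b.1 < j + 1 := h2
          omega
      · by_cases ha2 : a = ⟨j + 1, h⟩
        · subst ha2
          exfalso
          have h3 : j + 1 < b.1 := h1
          rw [Equiv.swap_apply_right, Equiv.swap_apply_of_ne_of_ne (by
            intro h5; rw [h5] at h3; exact absurd h3 (by simp)) (ne_of_gt h1)] at h2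
          have h4 : b.1 < j := h2
          omega
        · exfalso
          rw [Equiv.swap_apply_of_ne_of_ne ha1 ha2] at h2
          by_cases hb1 : b = ⟨j, hj⟩
          · subst hb1
            rw [Equiv.swap_apply_left] at h2
            have h3 : a.1 < j := h1
            have h4 : j + 1 < a.1 := h2
            omega
          · by_cases hb2 : b = ⟨j + 1, h⟩
            · subst hb2
              rw [Equiv.swap_apply_right] at h2
              have h3 : a.1 < j + 1 := h1
              have h4 : j < a.1 := h2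
              omega
            · rw [Equiv.swap_apply_of_ne_of_ne hb1 hb2] at h2
              exact lt_asymm h1 h2
    · intro h'
      exact absurd (Finset.mem_univ _) h'

end Pool.Agent.H64.FTMR
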