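import Pool.Agent.H64.FTM.Targets

/-!
# MVA: moved places
-/

set_option autoImplicit false

open Matrix Pool.Agent.H64.CC Pool.Agent.H2.NL Pool.Agent.H64.EV Pool.Agent.H64.FTM

namespace Pool.Agent.H64.FTMR

theorem mva_aux {K : Type} [Field K] {I : Type} (o : I → Bool) {m : ℕ} (hACT : T_ACT) (n : ℕ) :
    ∀ s : ℕ, s + n < m → ∃ τ : Equiv.Perm (Fin m),
      (∀ t : List I → K, ev m (sws o (List.range' s n) t) = ac o τ (ev m t)) ∧
      (∀ p : Fin m, p.1 < s → τ p = p) ∧ (∀ p : Fin m, s + n < p.1 → τ p = p) ∧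
      ∀ p : Fin m, p.1 = s + n → (τ p).1 = s := by
  obtain ⟨a1, a2, a3, -⟩ := hACT K I o m
  induction n with
  | zero =>
    intro s hs
    refine ⟨1, fun t => ?_, fun p _ => rfl, fun p _ => rfl, fun p hp => hp⟩
    rw [a2]
    rfl
  | succ n ih =>
    intro s hs
    obtain ⟨τ, h1, h2, h3, h4⟩ := ih (s + 1) (by omega)
    have hs1 : s + 1 < m := by omega
    refine ⟨Equiv.swap ⟨s, Nat.lt_of_succ_lt hs1⟩ ⟨s + 1, hs1⟩ * τ, fun t => ?_, fun p hp => ?_,
      fun p hp => ?_, fun p hp => ?_⟩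
    · rw [List.range'_succ]
      show ev m (sw o s (sws o (List.range' (s + 1) n) t)) = _
      rw [a3 s hs1, h1, a1]
    · rw [Equiv.Perm.mul_apply, h2 p (by omega)]
      refine Equiv.swap_apply_of_ne_of_ne ?_ ?_
      · intro h
        have h' := congrArg Fin.val h
        simp at h'
        omega
      · intro h
        have h' := congrArg Fin.val h
        simp at h'
        omega
    · rw [Equiv.Perm.mul_apply, h3 p (by omega)]
      refine Equiv.swap_apply_of_ne_of_ne ?_ ?_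
      · intro h
        have h' := congrArg Fin.val h
        simp at h'
        omega
      · intro h
        have h' := congrArg Fin.val h
        simp at h'
        omega
    · rw [Equiv.Perm.mul_apply]
      have h5 : τ p = ⟨s + 1, hs1⟩ := Fin.ext (h4 p (by omega))
      rw [h5, Equiv.swap_apply_right]

theorem pf_MVA (hACT : T_ACT) (hPRF : T_PRF) : T_MVA := by
  intro K _ I _ _ F m hm i hi
  obtain ⟨a1, a2, a3, -⟩ := hACT K I F.o m
  obtain ⟨p1, p2, -, -⟩ := hPRF K I F m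
  have hi3 : 1 + (i.1 - 1) < m := by have := i.2; omega
  obtain ⟨τ, h1, h2, h3, h4⟩ := mva_aux (K := K) F.o hACT (i.1 - 1) 1 hi3
  have hi2 : (1 : ℕ) < m := by have := i.2; omega
  have t0 : τ ⟨0, hm⟩ = ⟨0, hm⟩ := h2 _ (by simp)
  have ti : (τ i).1 = 1 := h4 i (by omega)
  refine ⟨⟨τ, h1, t0, ti, fun p hp => h3 p (by omega)⟩, fun x y => ?_⟩
  have e1 : ∀ t : List I → K, ev m (mv F.o i.1 t) = ac F.o τ (ev m t) := h1
  have e2 : Equiv.swap (⟨0, hm⟩ : Fin m) i =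
      τ⁻¹ * (Equiv.swap ⟨0, Nat.lt_of_succ_lt hi2⟩ ⟨0 + 1, hi2⟩ * τ) := by
    have h5 : τ⁻¹ ⟨0, hm⟩ = ⟨0, hm⟩ := by rw [Equiv.Perm.inv_eq_iff_eq, t0]
    have h6 : τ⁻¹ ⟨1, hi2⟩ = i := by
      rw [Equiv.Perm.inv_eq_iff_eq]
      exact (Fin.ext ti).symm
    have h7 := Equiv.swap_apply_apply τ⁻¹ (⟨0, hm⟩ : Fin m) ⟨1, hi2⟩
    rw [h5, h6, inv_inv] at h7
    rw [h7, mul_assoc]
  rw [p1, a3 0 hi2, e1, e1, e2, a1, a1]
  rw [p2 τ⁻¹, inv_inv]

end Pool.Agent.H64.FTMR
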