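import Pool.Agent.H64.FTM.Targets

/-!
# PCN: the partial contraction
-/

set_option autoImplicit false

open Matrix Pool.Agent.H64.CC Pool.Agent.H2.NL Pool.Agent.H64.EV Pool.Agent.H64.FTM

namespace Pool.Agent.H64.FTMR

theorem pf_PCN : T_PCN := by
  intro K _ _ I _ _ F A hA k n x y hn hx hy
  have key : ∀ s : ℕ, s ≤ 2 * k - n → ∃ z ∈ A (2 * k - s), ∀ v v' : List I,
      v.length = 2 * k - s → v'.length = 2 * k - s →
      z (v ++ v') = F.Pr s (fun w => x (v ++ w)) (fun w => y (v'.reverse ++ w)) := by
    intro s
    induction s with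
    | zero =>
      intro _
      refine ⟨tp (2 * k) x (rv y), ?_, fun v v' hv _ => ?_⟩
      · have h := hA.tp k k x (rv y) hx hy
        have e : 2 * k - 0 = k + k := by omega
        rw [e]
        exact h
      · have hv2 : v.length = 2 * k := hv
        rw [← hv2, tp_append]
        show x v * y v'.reverse = x (v ++ []) * y (v'.reverse ++ [])
        rw [List.append_nil, List.append_nil]
    | succ s ih =>
      intro hs
      obtain ⟨z, hz, hz2⟩ := ih (by omega)
      obtain ⟨q, hq⟩ : ∃ q, 2 * k - s = q + 1 := ⟨2 * k - s - 1, by omega⟩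
      have hq2 : 2 * k - (s + 1) = q := by omega
      rw [hq] at hz hz2
      rw [hq2]
      refine ⟨con F.η q z, hA.con q q z hz (by omega), fun v v' hv hv' => ?_⟩
      have h1 := F.con_append v z v'
      rw [hv] at h1
      rw [h1]
      show _ = ∑ a, F.c a * F.Pr s (fun l => x (v ++ a :: l)) (fun l => y (v'.reverse ++ F.st a :: l))
      refine Finset.sum_congr rfl fun a _ => ?_
      have h2 := hz2 (v ++ [a]) (F.st a :: v') (by simp [hv]) (by simp [hv'])
      have e1 : v ++ [a] ++ F.st a :: v' = v ++ a :: F.st a :: v' := by simp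
      rw [e1] at h2
      rw [h2]
      congr 2
      · funext w
        simp
      · funext w
        simp
  obtain ⟨z, hz, hz2⟩ := key (2 * k - n) le_rfl
  have e : 2 * k - (2 * k - n) = n := by omega
  rw [e] at hz hz2
  exact ⟨z, hz, hz2⟩

end Pool.Agent.H64.FTMR
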