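import Pool.Agent.H64.FTM.Targets

/-!
# PRF: the pairing
-/

set_option autoImplicit false

open Matrix Pool.Agent.H64.CC Pool.Agent.H2.NL Pool.Agent.H64.EV Pool.Agent.H64.FTM

namespace Pool.Agent.H64.FTMR

theorem Pr_eq {K : Type} [Field K] {I : Type} [Fintype I] [DecidableEq I] (F : OForm K I) :
    ∀ (m : ℕ) (f g : List I → K), F.Pr m f g = pr F (ev m f) (ev m g) := by
  intro m
  induction m with
  | zero =>
    intro f g
    show f [] * g [] = ∑ w : Fin 0 → I, _
    rw [Fintype.sum_eq_single (Fin.elim0 : Fin 0 → I) (fun w hw => absurd (Subsingleton.elim w _) hw)]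
    simp [ev]
  | succ m ih =>
    intro f g
    show ∑ a, F.c a * F.Pr m (fun l => f (a :: l)) (fun l => g (F.st a :: l)) =
      ∑ w : Fin (m + 1) → I, _
    rw [← (Fin.consEquiv (fun _ : Fin (m + 1) => I)).sum_comp, Fintype.sum_prod_type]
    refine Finset.sum_congr rfl fun a _ => ?_
    rw [ih, pr, Finset.mul_sum]
    refine Finset.sum_congr rfl fun w _ => ?_
    simp only [Fin.consEquiv_apply, Fin.prod_univ_succ, Fin.cons_zero, Fin.cons_succ, ev,
      List.ofFn_succ]
    ring

theorem kap_st {K : Type} [Field K] {I : Type} (o : I → Bool) (st : I → I)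
    (h : ∀ a, o (st a) = o a) {m : ℕ} (σ : Equiv.Perm (Fin m)) (w : Fin m → I) :
    kap (K := K) o σ (fun i => st (w i)) = kap o σ w := by
  unfold kap
  simp only [h]

theorem pf_PRF (hKAP : T_KAP) : T_PRF := by
  intro K _ I _ _ F m
  obtain ⟨k1, k2, k3, -⟩ := hKAP K I F.o m
  refine ⟨Pr_eq F m, ?_, ?_, ?_⟩
  · intro σ f g
    unfold pr
    rw [← (Equiv.arrowCongr σ (Equiv.refl I)).sum_comp]
    refine Finset.sum_congr rfl fun w _ => ?_
    have e1 : ∀ i, (Equiv.arrowCongr σ (Equiv.refl I)) w i = w (σ.symm i) := fun i => rfl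
    have e2 : (Equiv.arrowCongr σ (Equiv.refl I)) w = fun i => w (σ.symm i) := funext e1
    rw [e2]
    have e3 : ∏ i, F.c (w (σ.symm i)) = ∏ i, F.c (w i) :=
      Equiv.prod_comp σ.symm fun i => F.c (w i)
    have e4 : kap (K := K) F.o σ (fun i => w (σ.symm i)) = kap F.o σ⁻¹ w := by
      have h1 := k1 σ⁻¹ σ w
      rw [inv_mul_cancel, k2] at h1
      have h2 := k3 σ⁻¹ w
      have h3 : kap (K := K) F.o σ (fun i => w (σ⁻¹ i)) = kap F.o σ⁻¹ w := by
        calc _ = (kap F.o σ⁻¹ w * kap F.o σ⁻¹ w) * kap F.o σ (fun i => w (σ⁻¹ i)) := by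
              rw [h2, one_mul]
          _ = kap F.o σ⁻¹ w * (kap F.o σ⁻¹ w * kap F.o σ (fun i => w (σ⁻¹ i))) := by ring
          _ = _ := by rw [← h1, mul_one]
      exact h3
    have e5 : kap (K := K) F.o σ⁻¹ (fun i => F.st (w i)) = kap F.o σ⁻¹ w :=
      kap_st F.o F.st F.o_st _ _
    unfold ac
    rw [e3, e4, e5]
    simp only [Equiv.symm_apply_apply]
    show _ = (∏ i, F.c (w i)) * f w * (kap F.o σ⁻¹ w * g fun i => F.st (w (σ.symm i)))
    ring
  · intro σ f
    funext w
    unfold rvf ac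
    have e : kap (K := K) F.o σ (fun i => w i.rev) =
        kap F.o (Fin.revPerm * σ * Fin.revPerm) w := by
      unfold kap
      have e1 : ∀ p : Fin m × Fin m, (p.1 < p.2 ∧ (Fin.revPerm * σ * Fin.revPerm).symm p.2 <
          (Fin.revPerm * σ * Fin.revPerm).symm p.1) ↔
          (p.2.rev < p.1.rev ∧ σ.symm p.1.rev < σ.symm p.2.rev) := by
        intro p
        have e2 : ∀ a : Fin m, (Fin.revPerm * σ * Fin.revPerm).symm a = (σ.symm a.rev).rev := by
          intro a
          rw [Equiv.symm_apply_eq]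
          simp [Fin.revPerm]
        rw [e2, e2, Fin.rev_lt_rev, Fin.rev_lt_rev]
      let φ : Fin m × Fin m ≃ Fin m × Fin m :=
        { toFun := fun p => (p.2.rev, p.1.rev)
          invFun := fun p => (p.2.rev, p.1.rev)
          left_inv := fun p => by simp
          right_inv := fun p => by simp }
      rw [← φ.prod_comp]
      refine Finset.prod_congr rfl fun p _ => ?_
      show (if p.2.rev < p.1.rev ∧ σ.symm p.1.rev < σ.symm p.2.rev then
        ks K (F.o (w p.2.rev.rev)) (F.o (w p.1.rev.rev)) else 1) = _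
      by_cases h : p.2.rev < p.1.rev ∧ σ.symm p.1.rev < σ.symm p.2.rev
      · rw [if_pos h, if_pos ((e1 p).2 h), Fin.rev_rev, Fin.rev_rev]
        exact Pool.Agent.H2.NL.ks_comm K _ _
      · rw [if_neg h, if_neg fun h' => h ((e1 p).1 h')]
    rw [e]
    congr 1
    congr 1
    funext i
    simp [Fin.revPerm]
  · intro t
    funext w
    show t (List.ofFn w).reverse = t (List.ofFn fun i => w i.rev)
    congr 1
    refine List.ext_getElem (by simp) fun i h1 h2 => ?_
    rw [List.getElem_reverse, List.getElem_ofFn, List.getElem_ofFn]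
    congr 1
    ext
    simp [Fin.rev]
    omega

end Pool.Agent.H64.FTMR
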