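import Pool.Agent.H64.FTM.Targets

/-!
# PTC: the supertrace of a composition with the partial contraction
-/

set_option autoImplicit false
set_option linter.unusedSectionVars false

open Matrix Pool.Agent.H64.CC Pool.Agent.H2.NL Pool.Agent.H64.EV Pool.Agent.H64.FTM

namespace Pool.Agent.H64.FTMR

section

variable {K : Type} [Field K] {I : Type} [Fintype I] [DecidableEq I] (F : OForm K I)

theorem zip_eq' : ∀ (w u : List I), w.length = u.length →
    (List.zipWith (fun a b => F.η a b) w u).prod =
      if w = u.map F.st then (u.map (fun b => F.c (F.st b))).prod else 0 := by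
  intro w
  induction w with
  | nil =>
    intro u hu
    have : u = [] := List.length_eq_zero_iff.1 hu.symm
    subst this
    simp
  | cons a w ih =>
    intro u hu
    cases u with
    | nil => simp at hu
    | cons b u =>
      rw [List.zipWith_cons_cons, List.prod_cons, ih u (by simpa using hu), List.map_cons,
        List.map_cons, List.prod_cons]
      have h1 : F.η a b = if b = F.st a then F.c a else 0 := rfl
      rw [h1]
      by_cases h : b = F.st a
      · have h2 : a = F.st b := by rw [h, F.st_st]
        rw [if_pos h]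
        by_cases h3 : w = u.map F.st
        · rw [if_pos h3, if_pos (by rw [← h2, ← h3]), ← h2]
        · rw [if_neg h3, if_neg (fun h4 => h3 (List.cons.inj h4).2), mul_zero]
      · rw [if_neg h, zero_mul, if_neg]
        intro h4
        exact h (by rw [(List.cons.inj h4).1, F.st_st])

theorem opw_eq' (l : ℕ) (y : List I → K) (u u' : List I) (hu : u'.length = l) :
    opw F.η l y u u' = y (u ++ (u'.map F.st).reverse) * (u'.map (fun b => F.c (F.st b))).prod := by
  obtain ⟨v0, hv0⟩ : ∃ v0 : List.Vector I l, v0.1 = (u'.map F.st).reverse :=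
    ⟨⟨(u'.map F.st).reverse, by simp [hu]⟩, rfl⟩
  refine (Finset.sum_eq_single v0 ?_ ?_).trans ?_
  rotate_left 2
  · rw [hv0, zip_eq' F _ _ (by simp), List.reverse_reverse, if_pos rfl]
  · intro v _ hv
    rw [zip_eq' F _ _ (by rw [List.length_reverse, v.2, hu]), if_neg, mul_zero]
    intro h
    apply hv
    apply Subtype.ext
    change v.1 = v0.1
    rw [hv0, ← h, List.reverse_reverse]
  · intro h
    exact absurd (Finset.mem_univ _) h

theorem Pr_ne : ∀ (n : ℕ) (f g : List I → K), F.Pr n f g ≠ 0 →
    ∃ w : List I, w.length = n ∧ f w ≠ 0 ∧ g (w.map F.st) ≠ 0 := by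
  intro n
  induction n with
  | zero =>
    intro f g h
    exact ⟨[], rfl, left_ne_zero_of_mul h, right_ne_zero_of_mul h⟩
  | succ n ih =>
    intro f g h
    obtain ⟨a, -, ha⟩ := Finset.exists_ne_zero_of_sum_ne_zero h
    obtain ⟨w, hw, h1, h2⟩ := ih _ _ (right_ne_zero_of_mul ha)
    exact ⟨a :: w, by simp [hw], h1, h2⟩

theorem Pr_lin {ι : Type} [Fintype ι] (q : ι → K) : ∀ (n : ℕ) (f : ι → List I → K)
    (g : List I → K), F.Pr n (fun w => ∑ v, q v * f v w) g = ∑ v, q v * F.Pr n (f v) g := by
  intro n
  induction n with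
  | zero =>
    intro f g
    show (∑ v, q v * f v []) * g [] = ∑ v, q v * (f v [] * g [])
    rw [Finset.sum_mul]
    exact Finset.sum_congr rfl fun v _ => mul_assoc _ _ _
  | succ n ih =>
    intro f g
    show ∑ a, F.c a * F.Pr n (fun l => ∑ v, q v * f v (a :: l)) (fun l => g (F.st a :: l)) =
      ∑ v, q v * ∑ a, F.c a * F.Pr n (fun l => f v (a :: l)) (fun l => g (F.st a :: l))
    have h1 : ∀ a, F.Pr n (fun l => ∑ v, q v * f v (a :: l)) (fun l => g (F.st a :: l)) =
        ∑ v, q v * F.Pr n (fun l => f v (a :: l)) (fun l => g (F.st a :: l)) := fun a =>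
      ih (fun v l => f v (a :: l)) (fun l => g (F.st a :: l))
    simp only [h1, Finset.mul_sum]
    rw [Finset.sum_comm]
    exact Finset.sum_congr rfl fun v _ => Finset.sum_congr rfl fun a _ => by ring

theorem sgw_odds (o : I → Bool) (w : List I) : sgw K o w = (-1) ^ odds o w := by
  induction w with
  | nil => simp [sgw, odds]
  | cons a w ih =>
    have h1 : sgw K o (a :: w) = sg K (o a) * sgw K o w := by simp [sgw]
    rw [h1, ih]
    unfold odds sg
    cases h : o a
    · simp [h]
    · simp [h, pow_succ]

theorem odds_append (o : I → Bool) (u w : List I) : odds o (u ++ w) = odds o u + odds o w := by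
  unfold odds
  rw [List.filter_append, List.length_append]

theorem odds_st (w : List I) : odds F.o (w.map F.st) = odds F.o w := by
  unfold odds
  induction w with
  | nil => rfl
  | cons a w ih =>
    rw [List.map_cons, List.filter_cons, List.filter_cons, F.o_st]
    cases F.o a
    · exact ih
    · simp [ih]

theorem c_st_prod (v : List I) :
    (v.map (fun b => F.c (F.st b))).prod = sgw K F.o v * (v.map F.c).prod := by
  induction v with
  | nil => simp [sgw]
  | cons a v ih =>
    have h1 : sgw K F.o (a :: v) = sg K (F.o a) * sgw K F.o v := by simp [sgw]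
    rw [List.map_cons, List.prod_cons, ih, h1, List.map_cons, List.prod_cons, F.c_st]
    ring

end

theorem pf_PTC : T_PTC := by
  intro K _ I _ _ F k n x y z hn hx hy hz Q
  have h1 : ∀ u v : List.Vector I n, sgw K F.o u.1 * (op F.η n z u v * Q v u) =
      (v.1.map F.c).prod * (Q v u * F.Pr (2 * k - n) (fun w => x (u.1 ++ w))
        (fun w => y (v.1.map F.st ++ w))) := by
    intro u v
    have h2 : op F.η n z u v = z (u.1 ++ (v.1.map F.st).reverse) *
        (sgw K F.o v.1 * (v.1.map F.c).prod) := by
      rw [← c_st_prod]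
      exact opw_eq' F n z u.1 v.1 v.2
    rw [h2, hz u.1 (v.1.map F.st).reverse u.2 (by simp), List.reverse_reverse]
    by_cases h3 : F.Pr (2 * k - n) (fun w => x (u.1 ++ w)) (fun w => y (v.1.map F.st ++ w)) = 0
    · rw [h3]
      ring
    · obtain ⟨w, hw, hxw, hyw⟩ := Pr_ne F _ _ _ h3
      have h4 := hx (u.1 ++ w) (by rw [List.length_append, u.2, hw]; omega) hxw
      have h5 := hy (v.1.map F.st ++ w.map F.st) (by
        rw [List.length_append, List.length_map, List.length_map, v.2, hw]; omega) hyw
      rw [odds_append] at h4 h5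
      rw [odds_st, odds_st] at h5
      have h6 : sgw K F.o u.1 * sgw K F.o v.1 = 1 := by
        rw [sgw_odds, sgw_odds, ← pow_add]
        refine Even.neg_one_pow ?_
        have h7 := h4.add h5
        obtain ⟨r, hr⟩ := h7
        exact ⟨r - odds F.o w, by omega⟩
      linear_combination ((v.1.map F.c).prod * (Q v u * F.Pr (2 * k - n) (fun w => x (u.1 ++ w))
        (fun w => y (v.1.map F.st ++ w)))) * h6
  have h2 : ∀ u : List.Vector I n, F.Pr (2 * k - n)
      (fun w => ∑ v : List.Vector I n, Q u v * x (v.1 ++ w)) (fun w => y (u.1.map F.st ++ w)) =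
      ∑ v : List.Vector I n, Q u v * F.Pr (2 * k - n) (fun w => x (v.1 ++ w))
        (fun w => y (u.1.map F.st ++ w)) := fun u =>
    Pr_lin F (fun v => Q u v) _ (fun v w => x (v.1 ++ w)) _
  simp only [Matrix.mul_apply, h2, Finset.mul_sum]
  rw [Finset.sum_comm]
  exact Finset.sum_congr rfl fun v _ => Finset.sum_congr rfl fun u _ => h1 u v

end Pool.Agent.H64.FTMR
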