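import Pool.Agent.H64.FTM.Targets

/-!
# SPX: the symmetrizer of a symmetric tensor
-/

set_option autoImplicit false
set_option linter.unusedSectionVars false

open Matrix Pool.Agent.H64.CC Pool.Agent.H2.NL Pool.Agent.H64.EV Pool.Agent.H64.EK Pool.Agent.H64.FTM

namespace Pool.Agent.H64.FTMR

theorem twl_app {K : Type} [Field K] {I : Type} (o : I → Bool) (α : List I) :
    ∀ (i : ℕ) (β : List I), twl K o i (α ++ β) = twl K o i α * twl K o (i + α.length) β := by
  induction α with
  | nil => intro i β; simp [twl]
  | cons a α ih =>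
    intro i β
    show sg K (o a) ^ i * twl K o (i + 1) (α ++ β) = sg K (o a) ^ i * twl K o (i + 1) α * _
    rw [ih, List.length_cons, mul_assoc, show i + 1 + α.length = i + (α.length + 1) by omega]

theorem twl_sq {K : Type} [Field K] {I : Type} (o : I → Bool) (α : List I) :
    ∀ i : ℕ, twl K o i α * twl K o i α = 1 := by
  induction α with
  | nil => intro i; exact one_mul 1
  | cons a α ih =>
    intro i
    show sg K (o a) ^ i * twl K o (i + 1) α * (sg K (o a) ^ i * twl K o (i + 1) α) = 1
    calc _ = (sg K (o a) * sg K (o a)) ^ i * (twl K o (i + 1) α * twl K o (i + 1) α) := by ring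
      _ = 1 := by rw [ih, sg_mul_self, one_pow, one_mul]

theorem pf_SPX (hXPS : T_XPS) (hSPH : Pool.Agent.H2.KM.T_SPH) : T_SPX := by
  intro K _ I _ _ o z hz n h hh u hu
  have h1 : ∀ a b : I, (1 : Matrix I I K) a b ≠ 0 → o a = o b := by
    intro a b hab
    by_cases h5 : a = b
    · rw [h5]
    · exact absurd (Matrix.one_apply_ne h5) hab
  rcases hz with rfl | rfl
  · have h2 : Symm o n h := by
      intro j hj w hw
      rw [hh j hj w hw, one_mul]
    have h3 := hSPH K I o n h h2 u hu
    rw [← h3]
    refine Finset.sum_congr rfl fun w _ => ?_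
    rw [(hXPS K I I o o 1 h1 u w.1).1]
  · have h2 : Symm (fo o) n (fun w => twl K o 0 w * h w) := by
      intro j hj w hw
      have h4 := hh j hj w hw
      obtain ⟨α, a, b, β, rfl, rfl⟩ := exists_split j w (by omega)
      rw [sw_append] at h4 ⊢
      show ks K (!o a) (!o b) * (twl K o 0 (α ++ b :: a :: β) * h (α ++ b :: a :: β)) =
        twl K o 0 (α ++ a :: b :: β) * h (α ++ a :: b :: β)
      have e1 : twl K o 0 (α ++ b :: a :: β) =
          sg K (o a) * sg K (o b) * twl K o 0 (α ++ a :: b :: β) := by
        rw [twl_app, twl_app]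
        show _ * (sg K (o b) ^ _ * (sg K (o a) ^ (_ + 1) * _)) =
          sg K (o a) * sg K (o b) * (_ * (sg K (o a) ^ _ * (sg K (o b) ^ (_ + 1) * _)))
        have hb := sg_mul_self K (o b)
        rw [pow_succ, pow_succ]
        linear_combination (-(twl K o 0 α * sg K (o a) ^ (0 + α.length) * sg K (o b) ^ (0 + α.length) *
          sg K (o a) * twl K o (0 + α.length + 1 + 1) β)) * hb
      have e2 : h (α ++ b :: a :: β) = -(ks K (o a) (o b) * h (α ++ a :: b :: β)) := by
        have h5 := ks_mul_self K (o a) (o b)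
        linear_combination (ks K (o a) (o b)) * h4 - h (α ++ b :: a :: β) * h5
      rw [e1, e2]
      have e3 : ks K (!o a) (!o b) * (sg K (o a) * sg K (o b)) * ks K (o a) (o b) = -1 := by
        cases o a <;> cases o b <;> simp [ks, sg]
      linear_combination (-(twl K o 0 (α ++ a :: b :: β) * h (α ++ a :: b :: β))) * e3
    have h3 := hSPH K I (fo o) n _ h2 u hu
    have h6 := twl_sq (K := K) o u 0
    have h7 : ∑ w : List.Vector I n, xp (-1) o (1 : Matrix I I K) u w.1 * h w.1 =
        twl K o 0 u * ∑ w : List.Vector I n, Pool.Agent.H2.KM.sp (fo o) (1 : Matrix I I K) u w.1 *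
          (twl K o 0 w.1 * h w.1) := by
      rw [Finset.mul_sum]
      refine Finset.sum_congr rfl fun w _ => ?_
      rw [(hXPS K I I o o 1 h1 u w.1).2]
      ring
    rw [h7, h3]
    linear_combination ((n.factorial : K) * h u) * h6

end Pool.Agent.H64.FTMR
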