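import Pool.Agent.H2.NL.Basic
import Pool.Agent.H64.FTM.Targets

/-!
# ACT: the action of the permutations
-/

set_option autoImplicit false

open Matrix Pool.Agent.H64.CC Pool.Agent.H2.NL Pool.Agent.H64.FTM

namespace Pool.Agent.H64.FTMR

theorem ofFn_split {I : Type} {m : ℕ} (j : ℕ) (h : j + 1 < m) (w : Fin m → I) :
    ∃ (α β : List I), α.length = j ∧
      List.ofFn w = α ++ w ⟨j, Nat.lt_of_succ_lt h⟩ :: w ⟨j + 1, h⟩ :: β ∧
      List.ofFn (fun i => w (Equiv.swap ⟨j, Nat.lt_of_succ_lt h⟩ ⟨j + 1, h⟩ i)) =
        α ++ w ⟨j + 1, h⟩ :: w ⟨j, Nat.lt_of_succ_lt h⟩ :: β := by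
  obtain ⟨α, a, b, β, hα, hw⟩ := exists_split j (List.ofFn w) (by simp; omega)
  have hl : (List.ofFn w).length = m := List.length_ofFn
  have key : ∀ (i : ℕ) (hi : i < m), (α ++ a :: b :: β)[i]'(by rw [← hw, hl]; exact hi) = w ⟨i, hi⟩ := by
    intro i hi
    have : (List.ofFn w)[i]'(by rw [hl]; exact hi) = w ⟨i, hi⟩ := by simp
    rw [← this]
    simp only [hw]
  have hlen : α.length + (β.length + 1 + 1) = m := by
    have := congrArg List.length hw
    rw [hl, List.length_append] at this
    simp only [List.length_cons] at this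
    omega
  have ha : a = w ⟨j, Nat.lt_of_succ_lt h⟩ := by
    rw [← key j (Nat.lt_of_succ_lt h), List.getElem_append_right (by omega)]
    simp [hα]
  have hb : b = w ⟨j + 1, h⟩ := by
    rw [← key (j + 1) h, List.getElem_append_right (by omega)]
    simp [hα]
  subst ha
  subst hb
  refine ⟨α, β, hα, hw, ?_⟩
  refine List.ext_getElem (by simp; omega) fun i h1 h2 => ?_
  have hi : i < m := by simpa using h1
  rw [List.getElem_ofFn]
  rcases lt_trichotomy i j with h3 | h3 | h3
  · rw [Equiv.swap_apply_of_ne_of_ne (by intro h4; have := congrArg Fin.val h4; simp at this; omega)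
      (by intro h4; have := congrArg Fin.val h4; simp at this; omega), ← key i hi,
      List.getElem_append_left (by omega), List.getElem_append_left (by omega)]
  · subst h3
    rw [Equiv.swap_apply_left, List.getElem_append_right (by omega)]
    simp [hα]
  · rcases Nat.lt_or_ge (j + 1) i with h4 | h4
    · rw [Equiv.swap_apply_of_ne_of_ne (by intro h5; have := congrArg Fin.val h5; simp at this; omega)
        (by intro h5; have := congrArg Fin.val h5; simp at this; omega), ← key i hi,
        List.getElem_append_right (by omega), List.getElem_append_right (by omega)]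
      obtain ⟨d, hd⟩ : ∃ d, i - α.length = d + 1 + 1 := ⟨i - α.length - 2, by omega⟩
      simp only [hd, List.getElem_cons_succ]
    · have h5 : i = j + 1 := by omega
      subst h5
      rw [Equiv.swap_apply_right, List.getElem_append_right (by omega)]
      simp [hα]

theorem sw_app {K : Type} [Field K] {I : Type} (o : I → Bool) (α : List I) :
    ∀ (t : List I → K) (a b : I) (β : List I),
    sw o α.length t (α ++ a :: b :: β) = ks K (o a) (o b) * t (α ++ b :: a :: β) := by
  induction α with
  | nil => intro t a b β; rfl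
  | cons x α ih => intro t a b β; exact ih (fun l' => t (x :: l')) a b β

theorem pf_ACT (hKAP : T_KAP) : T_ACT := by
  intro K _ I o m
  obtain ⟨k1, k2, k3, k4⟩ := hKAP K I o m
  have h1 : ∀ (σ τ : Equiv.Perm (Fin m)) (f : (Fin m → I) → K),
      ac o (σ * τ) f = ac o σ (ac o τ f) := by
    intro σ τ f
    funext w
    unfold ac
    rw [k1, mul_assoc]
    rfl
  have h2 : ∀ f : (Fin m → I) → K, ac o 1 f = f := by
    intro f
    funext w
    unfold ac
    rw [k2, one_mul]
    rfl
  have h3 : ∀ (j : ℕ) (h : j + 1 < m) (t : List I → K),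
      ev m (sw o j t) = ac o (Equiv.swap ⟨j, Nat.lt_of_succ_lt h⟩ ⟨j + 1, h⟩) (ev m t) := by
    intro j h t
    funext w
    unfold ac ev
    rw [k4 j h w]
    obtain ⟨α, β, hα, e1, e2⟩ := ofFn_split j h w
    rw [e1, e2]
    have e3 := sw_app (K := K) o α t (w ⟨j, Nat.lt_of_succ_lt h⟩) (w ⟨j + 1, h⟩) β
    rw [hα] at e3
    exact e3
  refine ⟨h1, h2, h3, ?_⟩
  intro σ
  rcases m with _ | n
  · refine ⟨[], by simp, fun t => ?_⟩
    rw [Subsingleton.elim σ 1, h2]
    rfl
  · have hσ : σ ∈ Submonoid.closure (Set.range fun i : Fin n => Equiv.swap i.castSucc i.succ) := by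
      rw [Equiv.Perm.mclosure_swap_castSucc_succ]
      exact Submonoid.mem_top σ
    induction hσ using Submonoid.closure_induction with
    | mem x hx =>
      obtain ⟨i, rfl⟩ := hx
      refine ⟨[i.1], ?_, fun t => ?_⟩
      · intro j hj
        rw [List.mem_singleton] at hj
        have := i.2
        omega
      · have hi : i.1 + 1 < n + 1 := by have := i.2; omega
        exact h3 i.1 hi t
    | one =>
      refine ⟨[], by simp, fun t => ?_⟩
      rw [h2]
      rfl
    | mul x y _ _ hx hy =>
      obtain ⟨js, hjs, hx⟩ := hx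
      obtain ⟨js', hjs', hy⟩ := hy
      refine ⟨js ++ js', ?_, fun t => ?_⟩
      · intro j hj
        rcases List.mem_append.1 hj with h | h
        · exact hjs j h
        · exact hjs' j h
      · have e : sws o (js ++ js') t = sws o js (sws o js' t) := by
          unfold sws
          rw [List.foldr_append]
        rw [e, hx, hy, h1]

end Pool.Agent.H64.FTMR
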